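import Pool.Agent.H.MP_0447ec_lc.LV.Eff

/-!
# Frege with the permutation rule and extended Frege are effectively p-equivalent
-/

namespace Pool.Agent.Results.MP_0447ec_lc.EffectiveEquivalence

open Pool.Agent.H.MP_0447ec_lc.PS

/-- For every Frege system `F`, `F` with the permutation rule and extended Frege are effectively
p-equivalent:
* a formula `f (A, m)`, computable in polynomial time from `A` and `m` in unary, is a disjunction of
  `m + 1` disjoint copies of `A`, and every proof of `A` of length at most `m` in `F` with the
  extension rule is mapped in polynomial time to a proof of `f (A, m)` in `F` with the permutation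
  rule; extended Frege is p-closed under the contraction of disjoint copies;
* a proof system effectively p-simulates `F` with the permutation rule if and only if it
  effectively p-simulates extended Frege, and it is effectively p-simulated by the first if and
  only if it is effectively p-simulated by the second; the canonical disjoint NP pairs of the two
  systems are equivalent;
* if `F` with the permutation rule is automatable then so is extended Frege; if it has the feasible
  disjunction property then it simulates extended Frege (with a polynomial bound for the length). -/
theorem result (F : List Rule) (hF : IsFrege F) :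
    (∃ (f : Fm × ℕ → Fm) (g : (Fm × ℕ) × List Fm → List Fm),
      Nonempty (Turing.TM2ComputableInPolyTime codeQuery codeFm f) ∧
      Nonempty (Turing.TM2ComputableInPolyTime codeQueryProof codeProof g) ∧
      (∀ (A : Fm) (m : ℕ), DisjointCopies A (f (A, m)) m) ∧
      ∀ (A : Fm) (m : ℕ) (π : List Fm), ExtProof F A π → (codeProof π).length ≤ m →
        PermProof F (f (A, m)) (g ((A, m), π))) ∧
    ClosedUnderContraction (ExtProof F) ∧
    (∀ P : Fm → List Fm → Prop,
      (EffectivelySimulates P (PermProof F) ↔ EffectivelySimulates P (ExtProof F)) ∧
      (EffectivelySimulates (PermProof F) P ↔ EffectivelySimulates (ExtProof F) P)) ∧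
    CanonicalPairReduces (ExtProof F) (PermProof F) ∧
    CanonicalPairReduces (PermProof F) (ExtProof F) ∧
    (Automatable (PermProof F) → Automatable (ExtProof F)) ∧
    (FeasibleDisjunction (PermProof F) → Simulates (PermProof F) (ExtProof F)) :=
  ⟨eff_explicit hF, ext_contract hF, fun P => eff_equiv hF P, (canonical_equiv hF).1,
    (canonical_equiv hF).2, eff_automatable hF, (asmC hF).2.2.2.2⟩

end Pool.Agent.Results.MP_0447ec_lc.EffectiveEquivalence
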