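import Pool.Agent.H.MP_0447ec_lc.DY.ZEq

/-!
# The permutation rule is extended Frege with linear memory
-/

namespace Pool.Agent.Results.MP_0447ec_lc.LinearMemory

open Pool.Agent.H.MP_0447ec_lc.PS

/-- Let `F` be a Frege system and let `S` be a finite list of substitutions, each of them given by
a table of variables and formulas. The system `F` with the permutation rule and the rules given by
`S` is p-equivalent to the system of the slice proofs: for some `c`, a polynomial-time function
turns its proofs into slice proofs of the same formulas, and for every `c` a polynomial-time
function turns slice proofs into its proofs. `F` with the permutation rule p-simulates extended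
Frege if and only if for some `c` a polynomial-time function turns extended Frege proofs into slice
proofs of the same formulas, where `S` is empty. -/
theorem result (F : List Rule) (hF : IsFrege F) (S : List (List (List Bool × Fm))) :
    ((∃ (c : ℕ) (f : List Fm → List (List Fm)),
        Nonempty (Turing.TM2ComputableInPolyTime codeProof LM.codeProofs f) ∧
        ∀ (A : Fm) (π : List Fm), TableProof F S A π → LM.SliceProof F S c A (f π)) ∧
      ∀ c : ℕ, ∃ g : List (List Fm) → List Fm,
        Nonempty (Turing.TM2ComputableInPolyTime LM.codeProofs codeProof g) ∧
        ∀ (A : Fm) (σs : List (List Fm)), LM.SliceProof F S c A σs → TableProof F S A (g σs)) ∧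
    (PSimulates (PermProof F) (ExtProof F) ↔
      ∃ (c : ℕ) (f : List Fm → List (List Fm)),
        Nonempty (Turing.TM2ComputableInPolyTime codeProof LM.codeProofs f) ∧
        ∀ (A : Fm) (π : List Fm), ExtProof F A π → LM.SliceProof F [] c A (f π)) :=
  LM.slices_main hF S

end Pool.Agent.Results.MP_0447ec_lc.LinearMemory
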