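import Pool.Agent.H.MP_0447ec_lc.LV.SubTime
import Pool.Agent.H.MP_0447ec_lc.LV.BwSub
import Pool.Agent.H.MP_0447ec_lc.LV.Brute

/-!
# Frege with the permutation rule simulates extended Frege in subexponential time
-/

namespace Pool.Agent.Results.MP_0447ec_lc.SubexpTime

open Pool.Agent.H.MP_0447ec_lc.PS Pool.Agent.H.MP_0447ec_lc.PT

/-- For every Frege system `F` some function `f` computable in polynomial time (with `M` in unary)
maps every extended Frege proof `π` of a formula `A` and every `M` with
`(log₂ M)² ≥ b * log₂ |π|`, where `b` is the bandwidth of `π`, to a proof of `A` in `F` with the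
permutation rule; and the bandwidth is at most the number of lines. -/
theorem result (F : List Rule) (hF : IsFrege F) :
    (∃ f : List Fm × ℕ → List Fm,
      Nonempty (Turing.TM2ComputableInPolyTime codeProofNat codeProof f) ∧
      ∀ (A : Fm) (π : List Fm) (M : ℕ), ExtProof F A π →
        bandwidth F A π * Nat.log 2 (codeProof π).length ≤ Nat.log 2 M ^ 2 →
        PermProof F A (f (π, M))) ∧
    ∀ (A : Fm) (π : List Fm), ExtProof F A π → bandwidth F A π ≤ π.length := by
  obtain ⟨f, h1, h2⟩ := subTime_of hF (narrow_subst F) (brute hF)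
  refine ⟨⟨f, (tm2_iff_poly codeProofNat_eq codeProof_eq f).2 h1, ?_⟩, fun A π => bandwidth_le⟩
  intro A π M hπ hM
  exact h2 A _ M π (narrow_bandwidth hπ) hM

end Pool.Agent.Results.MP_0447ec_lc.SubexpTime
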