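import Pool.Agent.H.MP_0447ec_lc.DY.Main3

/-!
# The strength of the permutation rule with finitely many substitution rules
-/

namespace Pool.Agent.Results.MP_0447ec_lc.SubstitutionClassification

open Pool.Agent.H.MP_0447ec_lc.PS

/-- Let `F` be a Frege system and let `S` and `S'` be finite lists of substitutions, each of them
given by a table of variables and formulas. The system `F` with the permutation rule and the rules
given by `S` p-simulates the system `F` with the permutation rule and the rules given by `S'` if
and only if `S` contains a substitution that raises the number of true variables of some assignment
in case `S'` does, and contains a substitution that lowers this number for some assignment in case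
`S'` does, or already `F` with the permutation rule p-simulates extended Frege. It p-simulates
extended Frege if and only if `S` contains substitutions of both kinds, or already `F` with the
permutation rule p-simulates extended Frege. -/
theorem result (F : List Rule) (hF : IsFrege F) (S S' : List (List (List Bool × Fm))) :
    (PSimulates (TableProof F S) (TableProof F S') ↔
      (((∃ t ∈ S', Raises t) → ∃ t ∈ S, Raises t) ∧
        ((∃ t ∈ S', Lowers t) → ∃ t ∈ S, Lowers t)) ∨
      PSimulates (PermProof F) (ExtProof F)) ∧
    (PSimulates (TableProof F S) (ExtProof F) ↔
      ((∃ t ∈ S, Raises t) ∧ ∃ t ∈ S, Lowers t) ∨ PSimulates (PermProof F) (ExtProof F)) :=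
  ⟨classification hF S S', dichotomy hF S⟩

end Pool.Agent.Results.MP_0447ec_lc.SubstitutionClassification
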